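import Pool.Agent.AT12.Stmts3
import Pool.Agent.Helper24_AT8.FN8

/-!
# Squad AT12, row FNC

The final theorem for characters (adapted from `Helper24_AT8/FN8`).
-/

open scoped BigOperators

set_option autoImplicit false

noncomputable section

namespace Pool.Agent.PP.T12.H7

open Pool.Agent.Helper51_AWC Pool.Agent.Helper79_WRA Pool.Agent.PP Pool.Agent.PP.KF
open Pool.Agent.PP.K9 Pool.Agent.PP.K9.H97 Pool.Agent.PP.H75 Pool.Agent.PP.T3 Pool.Agent.PP.T2
open Pool.Agent.PP.T8 Pool.Agent.PP.T8.H24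

attribute [local instance] Ideal.Quotient.field

theorem fnc (hF : T3.FltStmt) (hZ : T2.DzaStmt) (hQ : T8.Qt3Stmt) (hInx : K9.InxStmt)
    (hT : TcaStmt) : FncStmt := by
  intro ℓ hfact M _ hM h2l G _ _ hc χ hχ D hD hab θ hθ A _ _ p hsurj hker a hexp hty
  have hℓ := hfact.out
  have hGF : GoodF ℓ (FF M) := H50.fld ℓ hℓ M hM
  obtain ⟨e, he, h1, h2⟩ := H50.bid ℓ hℓ M hM G χ hχ
  have hn : (opCore ℓ G).Normal := H75.opCore_normal (A := G) ℓ
  have hkp : IsPGroup ℓ p.ker := by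
    rw [hker]
    exact H75.opCore_isPGroup hℓ
  have hkc : p.ker ≤ Subgroup.center G := by
    rw [hker]
    exact hc
  have heq := H75.altSum_central H20.nls H20.brm H63.smt H94.nch
    (H50.dic H20.ibn H20.nls H20.brm) hℓ M hM hGF hsurj hker hkp hkc χ hχ e he h1 h2
  obtain ⟨hbf, hZD, hcardD, γ₀, hγ₀⟩ := hZ ℓ M hM G hc χ hχ D hD (fun x hx y hy => by
    rw [hab x hx y hy, mul_inv_cancel_right, mul_inv_cancel]
    exact (opCore ℓ G).one_mem) e he h1 A p hsurj hker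
  obtain ⟨γ, hγ, hTg⟩ := hF ℓ M hM G χ hχ e he h1 D hD hab θ hθ
  have hIn : ∀ n : ℕ, In M D θ n → ix D γ < n := by
    intro n hI
    have e2 : (Iner M D θ).ncard = Nat.card (Tg D γ) := by
      rw [← hTg]
      rfl
    unfold In at hI
    rw [e2, ← card_Tg hγ] at hI
    exact Nat.lt_of_mul_lt_mul_right hI
  have hmemT : ∀ t, t ∈ Tg D γ ↔ t ∈ Iner M D θ := by
    intro t
    rw [← hTg]
    rfl
  -- the normaliser of the core
  obtain ⟨q, hq⟩ : ∃ q : Subgroup.normalizer (opCore ℓ G : Set G) →* A,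
      q = p.comp (Subgroup.normalizer (opCore ℓ G : Set G)).subtype := ⟨_, rfl⟩
  have hnt : Subgroup.normalizer (opCore ℓ G : Set G) = ⊤ :=
    Subgroup.normalizer_eq_top (opCore ℓ G)
  have hqs : Function.Surjective q := by
    intro y
    obtain ⟨x, hx⟩ := hsurj y
    refine ⟨⟨x, hnt ▸ Subgroup.mem_top x⟩, ?_⟩
    rw [hq]
    exact hx
  have hqk : q.ker = (opCore ℓ G).subgroupOf (Subgroup.normalizer (opCore ℓ G : Set G)) := by
    ext x
    rw [MonoidHom.mem_ker, Subgroup.mem_subgroupOf, hq]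
    have h3 : (x : G) ∈ p.ker ↔ (x : G) ∈ opCore ℓ G := by rw [hker]
    rw [← h3, MonoidHom.mem_ker]
    rfl
  have hbr : br (opCore ℓ G) e = e := by
    funext t
    unfold br
    rw [if_pos]
    rw [Subgroup.mem_centralizer_iff]
    intro z hz
    exact (Subgroup.mem_center_iff.1 (hc hz) t).symm
  have hpq : push q (fun t : Subgroup.normalizer (opCore ℓ G : Set G) => br (opCore ℓ G) e t) =
      push p e := by
    classical
    have := Fintype.ofFinite G
    have := Fintype.ofFinite (Subgroup.normalizer (opCore ℓ G : Set G))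
    rw [hbr]
    funext y
    rw [push_eq, push_eq]
    refine Fintype.sum_bijective
      (fun x : Subgroup.normalizer (opCore ℓ G : Set G) => (x : G))
      ⟨Subtype.val_injective, fun g => ⟨⟨g, hnt ▸ Subgroup.mem_top g⟩, rfl⟩⟩ _ _ fun x => ?_
    rw [hq]
    rfl
  have hmap : (D.subgroupOf (Subgroup.normalizer (opCore ℓ G : Set G))).map q = D.map p := by
    ext y
    constructor
    · rintro ⟨x, hx, rfl⟩
      rw [hq]
      exact ⟨x, Subgroup.mem_subgroupOf.1 hx, rfl⟩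
    · rintro ⟨x, hx, rfl⟩
      refine ⟨⟨x, hnt ▸ Subgroup.mem_top x⟩, Subgroup.mem_subgroupOf.2 hx, ?_⟩
      rw [hq]
      rfl
  obtain ⟨γ', hV', n, hnD, hact⟩ := hQ ℓ M hM G e D γ hγ (opCore ℓ G) hZD A q hqs hqk (push p e)
    hbf (by rw [hpq]; exact hbf.1.2) (by rw [hmap]; exact hγ₀.tp)
  rw [hmap] at hV' hact
  have hnD' : ∀ v, v ∈ D ↔ n * v * n⁻¹ ∈ D := Subgroup.mem_normalizer_iff.1 hnD
  -- the transfer
  have hTr : Tr D γ (D.map p) γ' (p.comp (MulAut.conj n).toMonoidHom) := by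
    refine ⟨hab, ?_, ?_⟩
    · rintro y ⟨x, hx, rfl⟩
      refine ⟨n⁻¹ * x * n, ?_, ?_⟩
      · rw [hnD']
        have e1 : n * (n⁻¹ * x * n) * n⁻¹ = x := by group
        rw [e1]
        exact hx
      · show p (n * (n⁻¹ * x * n) * n⁻¹) = p x
        congr 1
        group
    · intro t' ht'
      obtain ⟨t, ht, h3⟩ := hact t' ht'
      refine ⟨t, ht, fun v hv => ?_⟩
      have h4 := h3 v hv ⟨n * v * n⁻¹, hnt ▸ Subgroup.mem_top _⟩
        ⟨n * (t * v * t⁻¹) * n⁻¹, hnt ▸ Subgroup.mem_top _⟩ rfl rfl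
      rw [hq] at h4
      exact h4
  have hixle : ix (D.map p) γ' ≤ ix D γ := hTr.ix_le
  have hcop : ¬ ℓ ∣ ix D γ := hInx ℓ M hM G e he D hγ.tp hab γ hγ.gam.supp hγ.gam.blk hγ.und
  have hFr : Fd ℓ M D θ → Fr (D.map p) γ' := by
    intro hfd t' ht' v' hv' hne hcom
    obtain ⟨v, hv, rfl⟩ := hTr.sur v' hv'
    obtain ⟨t, ht, h3⟩ := hTr.act t' ht'
    obtain ⟨w, hw, hw1, hw2⟩ := hTr.fix ht h3 hv hcom (pow_ix ht)
    have hwZ : w ∉ opCore ℓ G := by
      intro hwz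
      have e1 : n * w * n⁻¹ ∈ opCore ℓ G := hn.conj_mem _ hwz n
      rw [← hker, MonoidHom.mem_ker] at e1
      have e2 : (p.comp (MulAut.conj n).toMonoidHom) w = 1 := e1
      rw [e2] at hw2
      obtain ⟨y, hy⟩ : ∃ y : D.map p, (y : A) = (p.comp (MulAut.conj n).toMonoidHom) v :=
        ⟨⟨_, hv'⟩, rfl⟩
      obtain ⟨k, hk⟩ := hV'.tp.pg y
      have e3 : orderOf y ∣ ℓ ^ k := orderOf_dvd_of_pow_eq_one hk
      have e4 : orderOf y ∣ ix D γ := by
        apply orderOf_dvd_of_pow_eq_one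
        apply Subtype.ext
        rw [Subgroup.coe_pow, hy, ← hw2]
        rfl
      have e5 : Nat.Coprime (ℓ ^ k) (ix D γ) :=
        Nat.Coprime.pow_left _ ((Nat.Prime.coprime_iff_not_dvd hℓ).2 hcop)
      have e6 : orderOf y = 1 := Nat.eq_one_of_dvd_coprimes e5 e3 e4
      rw [orderOf_eq_one_iff] at e6
      apply hne
      rw [← hy, e6]
      rfl
    have htC := hfd t ((hmemT t).1 ht) w hw hwZ hw1
    rw [Subgroup.mem_centralizer_iff]
    intro y hy
    obtain ⟨u, hu, rfl⟩ := hTr.sur y hy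
    have e7 := h3 u hu
    rw [← Subgroup.mem_centralizer_iff.1 htC u hu, mul_inv_cancel_right] at e7
    have e8 := mul_inv_eq_iff_eq_mul.1 e7.symm
    exact e8.symm
  have hty8 : Ty12 ℓ a (D.map p) γ' := by
    rcases hty with ⟨k, hk0, hka, hk, hsz, hei⟩ | ⟨h3a, hgen⟩ | ⟨ha, hfd, hin⟩
    · refine Or.inl (Or.inl ⟨k, hk0, hka, hexp, ?_, hsz, ?_⟩)
      · rcases hk with hk | hk | ⟨hk, hfd⟩
        · exact Or.inl hk
        · exact Or.inr (Or.inl (lt_of_le_of_lt hixle (hIn _ hk)))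
        · exact Or.inr (Or.inr ⟨lt_of_le_of_lt hixle (hIn _ hk), hFr hfd⟩)
      · rcases hei with hei | hei | hei
        · exact Or.inl (hTr.abel fun s hs t ht => hei s ((hmemT s).1 hs) t ((hmemT t).1 ht))
        · exact Or.inr (Or.inl (lt_of_le_of_lt hixle (hIn _ hei)))
        · exact Or.inr (Or.inr (hFr hei))
    · exact Or.inr ⟨h3a, hexp, hgen⟩
    · exact Or.inl (Or.inr (Or.inr
        ⟨ha, hexp, hFr hfd, hixle.trans (Nat.lt_succ_iff.1 (hIn _ hin))⟩))
  have h0 : YY ℓ (⊤ : Subgroup A) (push p e) = 0 :=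
    hT ℓ M hM h2l a A (push p e) (D.map p) γ' hV' hty8
  rw [h0, mul_zero] at heq
  rcases mul_eq_zero.1 heq with h | h
  · exact absurd h (by exact_mod_cast (Nat.card_pos (α := G)).ne')
  · exact h

end Pool.Agent.PP.T12.H7
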